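import Pool.Agent.Helper40.TWM.Stmts
import Pool.Agent.Helper72.TWR.MIN

/-!
Row MDC of the sheet TWM: modules of finite rank are sums of minimal modules.
-/

open MeasureTheory Filter Topology Finset
open scoped ComplexConjugate

namespace Pool.Agent.Helper72.TWM

open Pool.Agent.Helper98.TW
open Pool.Agent.Helper40.TWM
open Pool.Agent.Helper72.TWR
open Pool.Agent.Helper73.TWR (pull cec ind ind_mul am_ind)

variable {Ω : Type} [m0 : MeasurableSpace Ω]
variable {V : Type} [NormedAddCommGroup V] [InnerProductSpace ℂ V]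
variable {μ : Measure Ω}

theorem inner_ind [IsProbabilityMeasure μ] {e H G : Lp V 2 μ} {s : Set Ω}
    (hs : MeasurableSet s) (hH : (H : Ω → V) =ᵐ[μ] fun x => ind s x • e x) :
    (inner ℂ H G : ℂ) = ∫ x in s, (inner ℂ (e x) (G x) : ℂ) ∂μ := by
  rw [L2.inner_def, ← integral_indicator hs]
  refine integral_congr_ae ?_
  filter_upwards [hH] with x hx
  rw [hx]
  by_cases h : x ∈ s
  · rw [ind_of_mem h, one_smul, Set.indicator_of_mem h]
  · rw [ind_of_not h, zero_smul, inner_zero_left, Set.indicator_of_notMem h]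

/-- orthogonality over `C` -/
theorem orth_iff [IsProbabilityMeasure μ] {C : SA Ω} (hle : Lm C) (e G : Lp V 2 μ) :
    μ[fun x => (inner ℂ (e x) (G x) : ℂ)|C] =ᵐ[μ] 0 ↔
      ∀ (s : Set Ω) (H : Lp V 2 μ), MeasurableSet[C] s → (H : Ω → V) =ᵐ[μ] (fun x => ind s x • e x) →
        (inner ℂ H G : ℂ) = 0 := by
  have : IsFiniteMeasure (μ.trim hle) := isFiniteMeasure_trim hle
  have : SigmaFinite (μ.trim hle) := IsFiniteMeasure.toSigmaFinite _
  have hi : Integrable (fun x => (inner ℂ (e x) (G x) : ℂ)) μ :=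
    int_inner (Lp.memLp e) (Lp.memLp G)
  constructor
  · intro h s H hs hH
    rw [inner_ind (hle s hs) hH, ← setIntegral_condExp hle hi hs]
    rw [setIntegral_congr_ae (g := fun _ => (0 : ℂ)) (hle s hs) ?_]
    · simp
    · filter_upwards [h] with x hx _
      exact hx
  · intro h
    symm
    refine ae_eq_condExp_of_forall_setIntegral_eq hle hi ?_ ?_ ?_
    · intro s _ _
      exact (integrable_zero Ω ℂ μ).integrableOn
    · intro s hs _
      have h1 : MemLp (fun x => ind s x • e x) 2 μ :=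
        ml_smul hle (Lp.memLp e) (am_ind μ hs) ⟨1, Eventually.of_forall fun x => ind_le _ x⟩
      have h2 := h s h1.toLp hs h1.coeFn_toLp
      rw [inner_ind (hle s hs) h1.coeFn_toLp] at h2
      rw [h2]
      simp
    · exact aestronglyMeasurable_const (b := (0 : ℂ))

/-- the complement of a family in a module -/
def cpl [IsProbabilityMeasure μ] (C : SA Ω) (K : Submodule ℂ (Lp V 2 μ)) {m : ℕ}
    (e : Fin m → Lp V 2 μ) : Submodule ℂ (Lp V 2 μ) where
  carrier := {G | G ∈ K ∧ ∀ a, μ[fun x => (inner ℂ (e a x) (G x) : ℂ)|C] =ᵐ[μ] 0}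
  add_mem' := by
    rintro G G' ⟨h1, h2⟩ ⟨h1', h2'⟩
    refine ⟨K.add_mem h1 h1', fun a => ?_⟩
    have h3 : μ[fun x => (inner ℂ (e a x) ((G + G' : Lp V 2 μ) x) : ℂ)|C] =ᵐ[μ]
        μ[(fun x => (inner ℂ (e a x) (G x) : ℂ)) + fun x => (inner ℂ (e a x) (G' x) : ℂ)|C] := by
      refine condExp_congr_ae ?_
      filter_upwards [Lp.coeFn_add G G'] with x hx
      rw [hx, Pi.add_apply, inner_add_right]
      rfl
    have h4 := condExp_add (int_inner (Lp.memLp (e a)) (Lp.memLp G))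
      (int_inner (Lp.memLp (e a)) (Lp.memLp G')) C
    filter_upwards [h3, h4, h2 a, h2' a] with x hx3 hx4 hx2 hx2'
    rw [hx3, hx4, Pi.add_apply, hx2, hx2']
    simp
  zero_mem' := by
    refine ⟨K.zero_mem, fun a => ?_⟩
    have h3 : μ[fun x => (inner ℂ (e a x) ((0 : Lp V 2 μ) x) : ℂ)|C] =ᵐ[μ]
        μ[(0 : Ω → ℂ)|C] := by
      refine condExp_congr_ae ?_
      filter_upwards [Lp.coeFn_zero V 2 μ] with x hx
      rw [hx]
      simp
    refine h3.trans ?_
    rw [condExp_zero]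
  smul_mem' := by
    rintro c G ⟨h1, h2⟩
    refine ⟨K.smul_mem c h1, fun a => ?_⟩
    have h3 : μ[fun x => (inner ℂ (e a x) ((c • G : Lp V 2 μ) x) : ℂ)|C] =ᵐ[μ]
        μ[c • fun x => (inner ℂ (e a x) (G x) : ℂ)|C] := by
      refine condExp_congr_ae ?_
      filter_upwards [Lp.coeFn_smul c G] with x hx
      rw [hx, Pi.smul_apply, inner_smul_right]
      rfl
    have h4 := condExp_smul c (fun x => (inner ℂ (e a x) (G x) : ℂ)) (μ := μ) C
    filter_upwards [h3, h4, h2 a] with x hx3 hx4 hx2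
    rw [hx3, hx4, Pi.smul_apply, hx2]
    simp

theorem mem_cpl [IsProbabilityMeasure μ] {C : SA Ω} {K : Submodule ℂ (Lp V 2 μ)} {m : ℕ}
    {e : Fin m → Lp V 2 μ} {G : Lp V 2 μ} : G ∈ cpl C K e ↔
      G ∈ K ∧ ∀ a, μ[fun x => (inner ℂ (e a x) (G x) : ℂ)|C] =ᵐ[μ] 0 := Iff.rfl

theorem cpl_cm [IsProbabilityMeasure μ] {R R' : Ω → Ω} {C : SA Ω} {θ : Ω → V →L[ℂ] V}
    (hS : Sys μ R R') (hI : IA μ C R R') (hθ : AEStronglyMeasurable θ μ)
    (hθ1 : ∀ x v, ‖θ x v‖ = ‖v‖) {K E' : Submodule ℂ (Lp V 2 μ)} (hK : CM μ C R θ K) {m : ℕ}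
    {e : Fin m → Lp V 2 μ} {ρ : Ω → Matrix (Fin m) (Fin m) ℂ} (hF : Fr μ C R θ E' e ρ) :
    CM μ C R θ (cpl C K e) := by
  have hle : Lm C := hI.1
  refine ⟨⟨?_, ?_⟩, ?_⟩
  · -- closed
    refine isClosed_of_closure_subset fun G hG => ?_
    obtain ⟨u, hu, hlim⟩ := mem_closure_iff_seq_limit.1 hG
    refine ⟨hK.closed.mem_of_tendsto hlim (Eventually.of_forall fun n => (hu n).1), fun a => ?_⟩
    rw [orth_iff hle]
    intro s H hs hH
    have h1 : Tendsto (fun n => (inner ℂ H (u n) : ℂ)) atTop (𝓝 (inner ℂ H G)) :=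
      (tendsto_const_nhds (x := H)).inner hlim
    have h2 : ∀ n, (inner ℂ H (u n) : ℂ) = 0 := fun n =>
      (orth_iff hle (e a) (u n)).1 ((hu n).2 a) s H hs hH
    simp_rw [h2] at h1
    exact tendsto_nhds_unique h1 tendsto_const_nhds |>.symm ▸ rfl
  · -- stable under multiplication
    intro G hG c hc hcb G' hG'
    refine ⟨hK.mul G hG.1 c hc hcb G' hG', fun a => ?_⟩
    have hone : AM μ C (fun _ => (1 : ℂ)) := aestronglyMeasurable_const
    have honeb : ∃ B : ℝ, ∀ᵐ x ∂μ, ‖(fun _ : Ω => (1 : ℂ)) x‖ ≤ B :=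
      ⟨1, Eventually.of_forall fun x => by simp⟩
    have h1 := ce_inner hle (Lp.memLp (e a)) (Lp.memLp G) hone hc honeb hcb
    have h2 : μ[fun x => (inner ℂ (e a x) (G' x) : ℂ)|C] =ᵐ[μ]
        μ[fun x => (inner ℂ ((1 : ℂ) • e a x) (c x • G x) : ℂ)|C] := by
      refine condExp_congr_ae ?_
      filter_upwards [hG'] with x hx
      rw [hx, one_smul]
    filter_upwards [h1, h2, hG.2 a] with x hx1 hx2 hx3
    rw [hx2, hx1, hx3]
    simp
  · -- invariant
    intro G hG G' hG'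
    refine ⟨hK.comp G hG.1 G' hG', fun b => ?_⟩
    -- `e b` is a combination of the images
    have hinv : ∀ᵐ x ∂μ, e b x = ∑ a, conj (ρ x a b) • θ x (e a (R x)) := by
      have h1 : ∀ᵐ x ∂μ, ∀ a, θ x (e a (R x)) = ∑ b, ρ x a b • e b x :=
        ae_all_iff.2 hF.comp
      filter_upwards [h1, hF.unit] with x hx hu
      have hA' : star (ρ x) * ρ x = 1 := Matrix.mem_unitaryGroup_iff'.1 hu
      have hent : ∀ b c, ∑ a, conj (ρ x a b) * ρ x a c = if b = c then 1 else 0 := by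
        intro b c
        have h := congrFun (congrFun hA' b) c
        rw [Matrix.mul_apply, Matrix.one_apply] at h
        exact h
      simp_rw [hx, Finset.smul_sum, smul_smul]
      rw [Finset.sum_comm]
      simp_rw [← Finset.sum_smul, hent]
      rw [Finset.sum_eq_single b]
      · simp
      · intro c _ hc
        rw [if_neg (Ne.symm hc), zero_smul]
      · intro h
        exact absurd (Finset.mem_univ b) h
    have hρA : ∀ a, AM μ C (fun x => ρ x a b) := fun a => hF.meas a b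
    have hρb : ∀ a, ∃ B : ℝ, ∀ᵐ x ∂μ, ‖ρ x a b‖ ≤ B := by
      intro a
      refine ⟨1, ?_⟩
      filter_upwards [hF.unit] with x hu
      exact entry_norm_bound_of_unitary hu a b
    have hρA' : ∀ a, AM μ C (fun x => conj (ρ x a b)) := fun a => am_conj (hρA a)
    have hρb' : ∀ a, ∃ B : ℝ, ∀ᵐ x ∂μ, ‖conj (ρ x a b)‖ ≤ B := by
      intro a
      obtain ⟨B, hB⟩ := hρb a
      refine ⟨B, ?_⟩
      filter_upwards [hB] with x hx
      rwa [RCLike.norm_conj]
    have hone : AM μ C (fun _ => (1 : ℂ)) := aestronglyMeasurable_const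
    have honeb : ∃ B : ℝ, ∀ᵐ x ∂μ, ‖(fun _ : Ω => (1 : ℂ)) x‖ ≤ B :=
      ⟨1, Eventually.of_forall fun x => by simp⟩
    have hWl : ∀ a, MemLp (fun x => θ x (e a (R x))) 2 μ := fun a =>
      ml_comp hS.mp hθ hθ1 (Lp.memLp (e a))
    have hGl : MemLp (fun x => θ x (G (R x))) 2 μ := ml_comp hS.mp hθ hθ1 (Lp.memLp G)
    have hzero : ∀ a, μ[fun x => (inner ℂ (θ x (e a (R x))) (θ x (G (R x))) : ℂ)|C] =ᵐ[μ] 0 := by
      intro a
      have h1 : (fun x => (inner ℂ (θ x (e a (R x))) (θ x (G (R x))) : ℂ)) =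
          fun x => (fun y => (inner ℂ (e a y) (G y) : ℂ)) (R x) := by
        funext x
        exact inner_iso (hθ1 x) _ _
      rw [h1]
      have h2 := cec hS hI (int_inner (Lp.memLp (e a)) (Lp.memLp G))
      have h3 := hS.mp.quasiMeasurePreserving.ae_eq_comp (hG.2 a)
      filter_upwards [h2, h3] with x hx2 hx3
      rw [hx2]
      exact hx3
    have h1 : μ[fun x => (inner ℂ (e b x) (G' x) : ℂ)|C] =ᵐ[μ]
        μ[∑ a, fun x => (inner ℂ (conj (ρ x a b) • θ x (e a (R x)))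
          ((1 : ℂ) • θ x (G (R x))) : ℂ)|C] := by
      refine condExp_congr_ae ?_
      filter_upwards [hG', hinv] with x hx hx2
      rw [hx, hx2]
      simp only [Finset.sum_apply, one_smul, sum_inner]
    have hi : ∀ a, Integrable (fun x => (inner ℂ (conj (ρ x a b) • θ x (e a (R x)))
          ((1 : ℂ) • θ x (G (R x))) : ℂ)) μ := fun a =>
      int_inner (ml_smul hle (hWl a) (hρA' a) (hρb' a)) (ml_smul hle hGl hone honeb)
    have h2 := condExp_finsetSum (s := univ) (fun a _ => hi a) C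
    have h3 : ∀ᵐ x ∂μ, ∀ a, _ := ae_all_iff.2 fun a =>
      ce_inner hle (hWl a) hGl (hρA' a) hone (hρb' a) honeb
    filter_upwards [h1, h2, h3, ae_all_iff.2 hzero] with x hx1 hx2 hx3 hx4
    rw [hx1, hx2, Finset.sum_apply]
    refine Finset.sum_eq_zero fun a _ => ?_
    rw [hx3 a, hx4 a]
    simp

theorem cpl_rk [IsProbabilityMeasure μ] {C : SA Ω} {K E' : Submodule ℂ (Lp V 2 μ)}
    (hle' : E' ≤ K) {m n : ℕ} {e : Fin m → Lp V 2 μ} (he : ∀ a, e a ∈ E') (hon : ON μ C e)
    (hrk : Rk μ C K n) : Rk μ C (cpl C K e) (n - m) := by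
  intro k g hg hg'
  have h1 := hrk (m + k) (Fin.append e g) ?_ ?_
  · omega
  · intro a
    refine Fin.addCases (fun a => ?_) (fun a => ?_) a
    · rw [Fin.append_left]
      exact hle' (he a)
    · rw [Fin.append_right]
      exact (hg a).1
  · intro a b
    refine Fin.addCases (fun a => ?_) (fun a => ?_) a
    · refine Fin.addCases (fun b => ?_) (fun b => ?_) b
      · rw [Fin.append_left, Fin.append_left]
        filter_upwards [hon a b] with x hx
        rw [hx]
        by_cases hab : a = b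
        · rw [if_pos hab, if_pos (by rw [hab])]
        · rw [if_neg hab, if_neg (fun h => hab (Fin.castAdd_injective m k h))]
      · rw [Fin.append_left, Fin.append_right]
        filter_upwards [ce_flip (C := C) (Lp.memLp (g b)) (Lp.memLp (e a)), (hg b).2 a] with x hx hx2
        rw [hx, hx2, if_neg]
        · simp
        · intro h
          have := congrArg Fin.val h
          simp only [Fin.val_castAdd, Fin.val_natAdd] at this
          omega
    · refine Fin.addCases (fun b => ?_) (fun b => ?_) b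
      · rw [Fin.append_right, Fin.append_left]
        filter_upwards [(hg a).2 b] with x hx
        rw [hx, if_neg]
        · rfl
        · intro h
          have := congrArg Fin.val h
          simp only [Fin.val_castAdd, Fin.val_natAdd] at this
          omega
      · rw [Fin.append_right, Fin.append_right]
        filter_upwards [hg' a b] with x hx
        rw [hx]
        by_cases hab : a = b
        · rw [if_pos hab, if_pos (by rw [hab])]
        · rw [if_neg hab, if_neg (fun h => hab (Fin.natAdd_injective k m h))]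

/-- splitting off a module -/
theorem split [IsProbabilityMeasure μ] [FiniteDimensional ℂ V] {C : SA Ω} (hle : Lm C)
    {K E' : Submodule ℂ (Lp V 2 μ)} (hE' : C0 μ C E') (hle' : E' ≤ K) {m : ℕ}
    {e : Fin m → Lp V 2 μ} (he : ∀ a, e a ∈ E') {G : Lp V 2 μ} (hG : G ∈ K) :
    ∃ G₁ G₂ : Lp V 2 μ, G₁ ∈ E' ∧ G₂ ∈ cpl C K e ∧ G = G₁ + G₂ := by
  have : CompleteSpace V := FiniteDimensional.complete ℂ V
  have : CompleteSpace E' := hE'.closed.completeSpace_coe
  set G₁ : Lp V 2 μ := E'.starProjection G with hG1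
  have h1 : G₁ ∈ E' := Submodule.starProjection_apply_mem E' G
  have h2 : G - G₁ ∈ E'ᗮ := Submodule.sub_starProjection_mem_orthogonal G
  refine ⟨G₁, G - G₁, h1, ⟨K.sub_mem hG (hle' h1), fun a => ?_⟩, by abel⟩
  rw [orth_iff hle]
  intro s H hs hH
  have h3 : H ∈ E' := hE'.mul (e a) (he a) (ind s) (am_ind μ hs)
    ⟨1, Eventually.of_forall fun x => ind_le _ x⟩ H hH
  exact (Submodule.mem_orthogonal E' _).1 h2 H h3

theorem mdc [IsProbabilityMeasure μ] [FiniteDimensional ℂ V] {R R' : Ω → Ω} {C : SA Ω}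
    {θ : Ω → V →L[ℂ] V} (hS : Sys μ R R') (hR : Ergodic R μ) (hI : IA μ C R R')
    (hθ : AEStronglyMeasurable θ μ) (hθ1 : ∀ x v, ‖θ x v‖ = ‖v‖) (n : ℕ) :
    ∀ K : Submodule ℂ (Lp V 2 μ), CM μ C R θ K → Rk μ C K n →
    ∀ G ∈ K, ∃ (k : ℕ) (h : Fin k → Lp V 2 μ), G = ∑ i, h i ∧
      ∀ i, ∃ (M : Submodule ℂ (Lp V 2 μ)) (m : ℕ) (e : Fin m → Lp V 2 μ)
        (ρ : Ω → Matrix (Fin m) (Fin m) ℂ), h i ∈ M ∧ M ≤ K ∧ Mi μ C R θ M ∧ 1 ≤ m ∧ m ≤ n ∧
        Rk μ C M m ∧ Fr μ C R θ M e ρ := by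
  have hle : Lm C := hI.1
  induction n using Nat.strong_induction_on with
  | _ n ih =>
    intro K hK hrk G hG
    by_cases hK0 : K = ⊥
    · refine ⟨0, fun i => i.elim0, ?_, fun i => i.elim0⟩
      rw [hK0] at hG
      rw [(Submodule.mem_bot ℂ).1 hG]
      simp
    · obtain ⟨E', m, e, ρ, hE'K, hMi, hm1, hmn, hrk', hF⟩ :=
        TWR.min hS hR hI hθ hθ1 hK hK0 hrk
      obtain ⟨G₁, G₂, hG1, hG2, hGG⟩ := split hle hMi.1.toC0 hE'K hF.mem hG
      have hcm := cpl_cm hS hI hθ hθ1 hK hF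
      have hrk2 : Rk μ C (cpl C K e) (n - m) := cpl_rk hE'K hF.mem hF.on hrk
      obtain ⟨k, h, hsum, hh⟩ := ih (n - m) (by omega) (cpl C K e) hcm hrk2 G₂ hG2
      refine ⟨k + 1, Fin.cons G₁ h, ?_, ?_⟩
      · rw [Fin.sum_univ_succ]
        simp only [Fin.cons_zero, Fin.cons_succ]
        rw [← hsum, hGG]
      · intro i
        refine Fin.cases ?_ (fun i => ?_) i
        · exact ⟨E', m, e, ρ, by simpa using hG1, hE'K, hMi, hm1, hmn, hrk', hF⟩
        · obtain ⟨M, m', e', ρ', h1, h2, h3, h4, h5, h6, h7⟩ := hh i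
          refine ⟨M, m', e', ρ', by simpa using h1, fun x hx => (h2 hx).1, h3, h4, by omega,
            h6, h7⟩

theorem st_MDC : ST_MDC := by
  intro Ω _ μ _ V _ _ _ R R' θ C K n hS hR hI hθ hK hrk G hG
  exact mdc hS hR hI hθ.ms hθ.iso n K hK hrk G hG

end Pool.Agent.Helper72.TWM
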