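import Pool.Agent.Helper72.TWM.MDC
import Pool.Agent.Helper60.TWM.Lin

/-!
Row MIV of the sheet TWM: modules of small rank for the power `p` are invariant.
-/

open MeasureTheory Filter Topology Finset
open scoped ComplexConjugate

namespace Pool.Agent.Helper72.TWM

open Pool.Agent.Helper98.TW
open Pool.Agent.Helper40.TWM
open Pool.Agent.Helper72.TWR
open Pool.Agent.Helper60.TWM (tp_iso)

variable {Ω : Type} [m0 : MeasurableSpace Ω]
variable {V : Type} [NormedAddCommGroup V] [InnerProductSpace ℂ V]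
variable {μ : Measure Ω}

theorem tp_ms {S : Ω → Ω} {θ : Ω → V →L[ℂ] V} (hS : MeasurePreserving S μ μ) (hθ : Th μ θ)
    (n : ℕ) : AEStronglyMeasurable (tp S θ n) μ := by
  induction n with
  | zero => exact aestronglyMeasurable_const (b := (1 : V →L[ℂ] V))
  | succ n ih =>
    have h1 : AEStronglyMeasurable (fun x => tp S θ n (S x)) μ :=
      ih.comp_quasiMeasurePreserving hS.quasiMeasurePreserving
    exact hθ.ms.mul h1

theorem th_tp {S : Ω → Ω} {θ : Ω → V →L[ℂ] V} (hS : MeasurePreserving S μ μ) (hθ : Th μ θ)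
    (n : ℕ) : Th μ (tp S θ n) := ⟨tp_ms hS hθ n, fun x v => tp_iso hθ n x v⟩

/-- strongly measurable representatives of the coefficients -/
theorem comb_am {C : SA Ω} (hle : Lm C) {E : Submodule ℂ (Lp V 2 μ)} (hE : C0 μ C E) {m : ℕ}
    (e : Fin m → Lp V 2 μ) (he : ∀ a, e a ∈ E) (c : Fin m → Ω → ℂ)
    (hc : ∀ a, AM μ C (c a)) {G : Lp V 2 μ}
    (hG : ∀ᵐ x ∂μ, G x = ∑ a, c a x • e a x) : G ∈ E := by
  have h1 : ∀ a, ∃ g : Ω → ℂ, StronglyMeasurable[C] g ∧ c a =ᵐ[μ] g := fun a => hc a
  choose g hg hcg using h1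
  refine mem_of_comb hle hE e he g hg ?_
  filter_upwards [hG, ae_all_iff.2 hcg] with x hx hx2
  rw [hx]
  refine Finset.sum_congr rfl fun a _ => ?_
  rw [hx2 a]

theorem st_MIV (hMDC : ST_MDC) (hMWI : ST_MWI) : ST_MIV := by
  intro Ω m0 μ _ V _ _ _ _ S S' θ C p q R₀ K hSt hθ hp hq hpq hR hQ hZ hK hrk
  have hS : Sys μ S S' := by simpa using hSt.sys 1
  have hT : Sys μ S^[p] S'^[p] := hSt.sys p
  have hE : Ergodic S^[p] μ := hSt.erg p hp.one_lt.le
  have hIA : IA μ C S S' := hQ.ia
  have hle : Lm C := hIA.1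
  have hIAp : IA μ C S^[p] S'^[p] := hIA.iterate p
  have hθp : Th μ (tp S θ p) := th_tp hS.mp hθ p
  have hdec := hMDC Ω μ V S^[p] S'^[p] (tp S θ p) C K R₀ hT hE hIAp hθp hK hrk
  constructor
  · refine ⟨hK.toC0, fun G hG G' hG' => ?_⟩
    obtain ⟨k, h, hsum, hh⟩ := hdec G hG
    have h1 : ∀ i, IE μ K (fun x => θ x (h i (S x))) := by
      intro i
      obtain ⟨M, m, e, ρ, h1, h2, h3, h4, h5, h6, h7⟩ := hh i
      obtain ⟨B, hB, hBu, hBe⟩ := hMWI Ω μ V S S' θ C p q R₀ M m e ρ hSt hθ hp hq hpq hR hQ hZ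
        h3 h4 h5 h7
      have hm := ml_comp hS.mp hθ.ms hθ.iso (Lp.memLp (h i))
      refine ⟨hm.toLp, h2 ?_, hm.coeFn_toLp⟩
      set c : Fin m → Ω → ℂ := fun a => μ[fun x => (inner ℂ (e a x) (h i x) : ℂ)|C] with hc
      have hcA : ∀ a, AM μ C (c a) := fun a => stronglyMeasurable_condExp.aestronglyMeasurable
      refine comb_am hle h3.1.toC0 e h7.mem (fun b x => ∑ a, c a (S x) * B x a b) (fun b => ?_) ?_
      · exact am_finset_sum _ fun a _ => am_mul (hIA.2 _ (hcA a)).1 (hB a b)
      · have hsp := hS.mp.quasiMeasurePreserving.ae (h7.span (h i) h1)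
        filter_upwards [hm.coeFn_toLp, hsp, ae_all_iff.2 hBe] with x hx1 hx2 hx3
        rw [hx1, hx2, map_sum]
        simp_rw [map_smul, hx3, Finset.smul_sum, smul_smul, Finset.sum_smul]
        rw [Finset.sum_comm]
    have h2 := IE.sum Finset.univ fun i (_ : i ∈ Finset.univ) => h1 i
    refine mem_of_ie (h2.congr ?_)
    have h3 : ∀ᵐ x ∂μ, G x = ∑ i, h i x := by
      rw [hsum]
      filter_upwards [Lp.coeFn_finsetSum Finset.univ h] with x hx
      rw [hx, Finset.sum_apply]
    filter_upwards [hG', hS.mp.quasiMeasurePreserving.ae h3] with x hx hx3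
    rw [hx, hx3, map_sum]
  · intro G G' hG hGG
    obtain ⟨k, h, hsum, hh⟩ := hdec G hG
    have h1 : ∀ i, ∃ g : Lp V 2 μ, g ∈ K ∧ ∀ᵐ x ∂μ, h i x = θ x (g (S x)) := by
      intro i
      obtain ⟨M, m, e, ρ, h1, h2, h3, h4, h5, h6, h7⟩ := hh i
      obtain ⟨B, hB, hBu, hBe⟩ := hMWI Ω μ V S S' θ C p q R₀ M m e ρ hSt hθ hp hq hpq hR hQ hZ
        h3 h4 h5 h7
      set d : Fin m → Ω → ℂ := fun a => μ[fun x => (inner ℂ (e a x) (h i x) : ℂ)|C] with hd
      have hdA : ∀ a, AM μ C (d a) := fun a => stronglyMeasurable_condExp.aestronglyMeasurable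
      set c : Fin m → Ω → ℂ := fun a y => ∑ b, d b (S' y) * conj (B (S' y) a b) with hc
      have hcA : ∀ a, AM μ C (c a) := fun a =>
        am_finset_sum _ fun b _ => am_mul (hIA.2 _ (hdA b)).2
          (Pool.Agent.Helper98.TW.am_conj (hIA.2 _ (hB a b)).2)
      set g : Ω → V := fun y => ∑ a, c a y • e a y with hg
      -- the image of `g`
      have hgh : ∀ᵐ x ∂μ, h i x = θ x (g (S x)) := by
        filter_upwards [h7.span (h i) h1, ae_all_iff.2 hBe, hS.l, hBu] with x hx hx3 hxl hxu
        have hA' : star (B x) * B x = 1 := Matrix.mem_unitaryGroup_iff'.1 hxu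
        have hent : ∀ b c, ∑ a, conj (B x a b) * B x a c = if b = c then 1 else 0 := by
          intro b c
          have h := congrFun (congrFun hA' b) c
          rw [Matrix.mul_apply, Matrix.one_apply] at h
          exact h
        have hcx : ∀ a, c a (S x) = ∑ b, d b x * conj (B x a b) := by
          intro a
          simp only [hc, hxl]
        rw [hg]
        simp only
        rw [map_sum]
        simp_rw [map_smul, hx3, hcx, Finset.smul_sum, smul_smul]
        rw [Finset.sum_comm]
        simp_rw [← Finset.sum_smul]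
        rw [hx]
        refine Finset.sum_congr rfl fun c _ => ?_
        congr 1
        have h8 : ∀ a, (∑ b, d b x * conj (B x a b)) * B x a c =
            ∑ b, d b x * (conj (B x a b) * B x a c) := by
          intro a
          rw [Finset.sum_mul]
          refine Finset.sum_congr rfl fun b _ => ?_
          ring
        simp_rw [h8]
        rw [Finset.sum_comm]
        simp_rw [← Finset.mul_sum, hent]
        rw [Finset.sum_eq_single c]
        · simp [hd]
        · intro b _ hb
          rw [if_neg hb, mul_zero]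
        · intro h
          exact absurd (Finset.mem_univ c) h
      have hgm : MemLp g 2 μ := by
        have h8 : MemLp (fun y => h i (S' y)) 2 μ :=
          (Lp.memLp (h i)).comp_measurePreserving hS.mp'
        refine h8.of_le ?_ ?_
        · have h9 : ∀ a, AEStronglyMeasurable (fun y => c a y • e a y) μ := fun a =>
            ((hcA a).mono hle).smul (Lp.aestronglyMeasurable (e a))
          exact Finset.aestronglyMeasurable_fun_sum Finset.univ fun a _ => h9 a
        · filter_upwards [hS.mp'.quasiMeasurePreserving.ae hgh, hS.r] with y hy hr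
          rw [hy, hθ.iso, hr]
      refine ⟨hgm.toLp, h2 ?_, ?_⟩
      · exact comb_am hle h3.1.toC0 e h7.mem c hcA hgm.coeFn_toLp
      · filter_upwards [hgh, hS.mp.quasiMeasurePreserving.ae hgm.coeFn_toLp] with x hx hx2
        rw [hx, hx2]
    choose g hgK hgh using h1
    have h2 : (∑ i, g i) = G' := by
      refine Lp.ext ?_
      have h3 : ∀ᵐ x ∂μ, G x = ∑ i, h i x := by
        rw [hsum]
        filter_upwards [Lp.coeFn_finsetSum Finset.univ h] with x hx
        rw [hx, Finset.sum_apply]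
      have h4 : ∀ᵐ x ∂μ, (∑ i, g i : Lp V 2 μ) x = ∑ i, g i x := by
        filter_upwards [Lp.coeFn_finsetSum Finset.univ g] with x hx
        rw [hx, Finset.sum_apply]
      have h5 : ∀ᵐ x ∂μ, (∑ i, g i : Lp V 2 μ) (S x) = G' (S x) := by
        filter_upwards [h3, hGG, hS.mp.quasiMeasurePreserving.ae h4, ae_all_iff.2 hgh] with
          x hx3 hx4 hx5 hx6
        have h7 : θ x ((∑ i, g i : Lp V 2 μ) (S x)) = θ x (G' (S x)) := by
          rw [← hx4, hx3, hx5, map_sum]
          exact Finset.sum_congr rfl fun i _ => (hx6 i).symm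
        have h8 : ‖(∑ i, g i : Lp V 2 μ) (S x) - G' (S x)‖ = 0 := by
          rw [← hθ.iso x, map_sub, h7, sub_self, norm_zero]
        exact sub_eq_zero.1 (norm_eq_zero.1 h8)
      filter_upwards [hS.mp'.quasiMeasurePreserving.ae h5, hS.r] with y hy hr
      rwa [hr] at hy
    rw [← h2]
    exact K.sum_mem fun i _ => hgK i

end Pool.Agent.Helper72.TWM
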